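import Pool.Agent.V1119.CG.Tur
import Pool.Agent.TH773.ST.Ful

/-!
# Turán's `(3,4)`-problem: 3-graphs with a gap in the codegrees

The codegree of a pair of vertices is the number of edges which contain it. In Turán's construction
with three equal parts on `n` vertices all codegrees are `n/3` or `2n/3 - 1`. It is proved that
Turán's conjecture holds for `K_4^3`-free 3-graphs with a gap in the codegrees between `n/3` and
`2n/3`, together with stability. Let `gap H ε` be the number of ordered pairs of vertices whose
codegree is strictly between `(1/3 + ε) n` and `(2/3 - ε) n`. For every `K_4^3`-free 3-graph `H` on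
`n` vertices and every `ε ≥ 0`

  `|H| ≤ (5/54) n³ + (1/420) n gap H ε + (3/100) ε n³`

and, for some division `g` of the vertices into three parts (which does not depend on `ε`),

  `|H ∆ turan g| ≤ 232243200 ((5/54) n³ - |H| + (1/204) n gap H ε + (2/27) ε n³)`.

So a 3-graph with (nearly) `(5/9) C(n,3)` edges or more which is not close to Turán's construction
has a positive proportion of pairs of vertices with codegrees strictly between `n/3` and `2n/3`; this
holds for every counterexample to the conjecture and for the other `K_4^3`-free 3-graphs that attain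
`5/9`, like those of Brown and Kostochka.

Outline: sum of squares certificates for six-vertex structures of the starting library, for which the
slack is positive for all 3-graphs on six vertices which are not contained in Turán's construction
(checked by the kernel).
-/

set_option autoImplicit false
open Finset
open scoped Classical

namespace Pool.Agent.Results.MP_f1799f_co.CodegreeGap
open Pool.Agent.TH773.Turan34

/-- The codegree: the number of vertices `z` such that `{x, y, z}` is an edge of `H`. It is `0` for
`x = y` if all edges have three elements. -/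
noncomputable def codegree {n : ℕ} (H : Finset (Finset (Fin n))) (x y : Fin n) : ℕ :=
  (univ.filter fun z => ({x, y, z} : Finset (Fin n)) ∈ H).card

/-- The number of ordered pairs of vertices with codegree strictly between `(1/3 + ε) n` and
`(2/3 - ε) n`. -/
noncomputable def gap {n : ℕ} (H : Finset (Finset (Fin n))) (ε : ℝ) : ℕ :=
  ((univ : Finset (Fin n × Fin n)).filter fun p =>
    (1 / 3 + ε) * (n : ℝ) < (codegree H p.1 p.2 : ℝ) ∧
      (codegree H p.1 p.2 : ℝ) < (2 / 3 - ε) * (n : ℝ)).card

/-- For all `K_4^3`-free 3-graphs `H` on `n` vertices: (1) Turán's bound up to a multiple of the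
number of pairs with codegree in the gap; (2) the distance to Turán's construction `turan g`, for a
division `g` of the vertices into three parts, is bounded by the number of edges missing from
Turán's bound and the number of pairs with codegree in the gap. (3) Turán's construction with three
equal parts on `3 m` vertices is `K_4^3`-free and has no codegrees in the gap for
`ε = 1 / (3 m)`. -/
theorem result :
    (∀ (n : ℕ) (H : Finset (Finset (Fin n))), (∀ e ∈ H, e.card = 3) → K43Free H →
      (∀ ε : ℝ, 0 ≤ ε → (H.card : ℝ) ≤
        5 / 54 * (n : ℝ) ^ 3 + 1 / 420 * ((n : ℝ) * gap H ε) + 3 / 100 * ε * (n : ℝ) ^ 3) ∧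
      ∃ g : Fin n → Fin 3, ∀ ε : ℝ, 0 ≤ ε →
        ((symmDiff H (turan g)).card : ℝ) ≤ 232243200 * ((5 / 54 * (n : ℝ) ^ 3 - H.card)
          + 1 / 204 * ((n : ℝ) * gap H ε) + 2 / 27 * ε * (n : ℝ) ^ 3)) ∧
    (∀ m : ℕ, 0 < m → ∀ g : Fin (3 * m) → Fin 3,
      (∀ k, ((univ : Finset (Fin (3 * m))).filter fun v => g v = k).card = m) →
        K43Free (turan g) ∧ (∀ e ∈ turan g, e.card = 3) ∧
          gap (turan g) (1 / (3 * (m : ℝ))) = 0) := by
  refine ⟨fun n H h3 hK => ⟨fun ε hε => Pool.Agent.V1119.CG.density_gap H h3 hK ε hε,
    Pool.Agent.V1119.CG.stability_gap H h3 hK⟩, fun m hm g hg => ?_⟩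
  exact ⟨Pool.Agent.TH773.ST.turan_free g, fun e he => Pool.Agent.TH773.ST.turan_card he,
    Pool.Agent.V1119.CG.gap_turan m hm g hg⟩

end Pool.Agent.Results.MP_f1799f_co.CodegreeGap
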