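import Pool.Agent.V11262.K4.Upper
import Pool.Agent.V11262.K4.Lower

/-!
# Large codegrees in `K_4^3`-free 3-graphs; the `ℓ_p`-version of Turán's problem for large `p`

Turán's (3,4)-problem asks for the largest number of triples of a `K_4^3`-free 3-graph, that is for
the largest sum of the codegrees. We consider the sums of the `p`-th powers of the codegrees. For
large `p` their maximum is `(2 / (e p)) (1 + o(1)) n^(p+2)`, and the extremal structure is no longer
Turán's construction with three parts of equal sizes (which gives `2 / 3 * (2 / 3)^p`), but the family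
of all triples with exactly one point in a set of `n / (p + 2)` points.

The same is true for the number of the pairs of codegree at least `(1 - ε) n`: its maximum is
`(2 + o(1)) ε n^2` as `ε → 0`.

Proof: for four points `x, y, z, w` not all of `xyz, xyw, zwx, zwy` are edges. So, if many pairs have
large codegrees, then most of them contain a point of a small set `B`. For `b, b'` in `B` and a third
point `a` such that the codegrees of `ab` and `ab'` are large, `abb'` is an edge for few triples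
`(a, b, b')` only; so the codegree of `ab` is at most `n` minus the number of these `b'`.
-/

set_option autoImplicit false

namespace Pool.Agent.Results.MP_f1799f_co.LargeCodegrees

open Finset
open scoped Classical

/-- The 3-graph `H` has no four vertices spanning all four triples. -/
def K43Free {n : ℕ} (H : Finset (Finset (Fin n))) : Prop :=
  ∀ S : Finset (Fin n), S.card = 4 → ∃ T ⊆ S, T.card = 3 ∧ T ∉ H

/-- The codegree of `x` and `y`: the number of the `z` for which `{x, y, z}` is in `H`. -/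
noncomputable def codegree {n : ℕ} (H : Finset (Finset (Fin n))) (x y : Fin n) : ℕ :=
  (univ.filter fun z => ({x, y, z} : Finset (Fin n)) ∈ H).card

theorem cod_eq {n : ℕ} (H : Finset (Finset (Fin n))) (x y : Fin n) :
    Pool.Agent.V11262.K4.cd (fun x y z : Fin n => ({x, y, z} : Finset (Fin n)) ∈ H) x y =
      codegree H x y := by
  unfold Pool.Agent.V11262.K4.cd codegree
  congr!

theorem rel_sym {n : ℕ} (H : Finset (Finset (Fin n))) :
    Pool.Agent.V11262.K4.Sym (fun x y z : Fin n => ({x, y, z} : Finset (Fin n)) ∈ H) where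
  a x y z h := by
    rw [Finset.insert_comm]
    exact h
  b x y z h := by
    rw [Finset.pair_comm]
    exact h

theorem rel_free {n : ℕ} {H : Finset (Finset (Fin n))} (h3 : ∀ e ∈ H, e.card = 3)
    (hF : K43Free H) :
    Pool.Agent.V11262.K4.Free (fun x y z : Fin n => ({x, y, z} : Finset (Fin n)) ∈ H) := by
  intro x y z w e1 e2 e3 e4
  have c : ∀ {a b d : Fin n}, ({a, b, d} : Finset (Fin n)) ∈ H → a ≠ b ∧ a ≠ d ∧ b ≠ d := by
    intro a b d h
    have h1 := h3 _ h
    refine ⟨?_, ?_, ?_⟩
    · rintro rfl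
      rw [Finset.insert_eq_of_mem (by simp)] at h1
      have := Finset.card_le_two (a := a) (b := d)
      omega
    · rintro rfl
      rw [Finset.insert_eq_of_mem (by simp)] at h1
      have := Finset.card_le_two (a := b) (b := a)
      omega
    · rintro rfl
      rw [Finset.pair_eq_singleton] at h1
      have := Finset.card_le_two (a := a) (b := b)
      omega
  obtain ⟨xy, xz, yz⟩ := c e1
  obtain ⟨-, xw, yw⟩ := c e2
  obtain ⟨-, -, zw⟩ := c e3
  have hS : ({x, y, z, w} : Finset (Fin n)).card = 4 := by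
    rw [Finset.card_eq_succ]
    refine ⟨x, {y, z, w}, by simp [xy, xz, xw], rfl, ?_⟩
    rw [Finset.card_eq_three]
    exact ⟨y, z, w, yz, yw, zw, rfl⟩
  obtain ⟨T, hTS, hT3, hTH⟩ := hF _ hS
  obtain ⟨v, hvS, hvT⟩ : ∃ v ∈ ({x, y, z, w} : Finset (Fin n)), v ∉ T := by
    by_contra hc
    push Not at hc
    have := Finset.card_le_card (fun v hv => hc v hv)
    omega
  have hT : T = ({x, y, z, w} : Finset (Fin n)).erase v := by
    apply Finset.eq_of_subset_of_card_le (Finset.subset_erase.mpr ⟨hTS, hvT⟩)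
    rw [Finset.card_erase_of_mem hvS, hS, hT3]
  apply hTH
  rw [hT]
  simp only [Finset.mem_insert, Finset.mem_singleton] at hvS
  rcases hvS with rfl | rfl | rfl | rfl
  · convert e4 using 1
    ext i
    simp only [Finset.mem_erase, Finset.mem_insert, Finset.mem_singleton]
    constructor
    · rintro ⟨h1, h2⟩
      tauto
    · rintro (rfl | rfl | rfl)
      · exact ⟨xy.symm, by tauto⟩
      · exact ⟨xz.symm, by tauto⟩
      · exact ⟨xw.symm, by tauto⟩
  · convert e3 using 1
    ext i
    simp only [Finset.mem_erase, Finset.mem_insert, Finset.mem_singleton]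
    constructor
    · rintro ⟨h1, h2⟩
      tauto
    · rintro (rfl | rfl | rfl)
      · exact ⟨xy, by tauto⟩
      · exact ⟨yz.symm, by tauto⟩
      · exact ⟨yw.symm, by tauto⟩
  · convert e2 using 1
    ext i
    simp only [Finset.mem_erase, Finset.mem_insert, Finset.mem_singleton]
    constructor
    · rintro ⟨h1, h2⟩
      tauto
    · rintro (rfl | rfl | rfl)
      · exact ⟨xz, by tauto⟩
      · exact ⟨yz, by tauto⟩
      · exact ⟨zw.symm, by tauto⟩
  · convert e1 using 1
    ext i
    simp only [Finset.mem_erase, Finset.mem_insert, Finset.mem_singleton]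
    constructor
    · rintro ⟨h1, h2⟩
      tauto
    · rintro (rfl | rfl | rfl)
      · exact ⟨xw, by tauto⟩
      · exact ⟨yw, by tauto⟩
      · exact ⟨zw, by tauto⟩

/-- **Large codegrees in `K_4^3`-free 3-graphs.**

(1) For `p ≥ 2` the sum of the `p`-th powers of the codegrees of the ordered pairs of vertices of a
`K_4^3`-free 3-graph on `n` vertices is at most `(2 / (e p) + 400 (log p)² / p^(5/4)) n^(p+2)`.

(2) For `p ≥ 1` and `δ > 0` it is, for all large `n`, at least `(2 / (e (p+2)) - δ) n^(p+2)` for some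
`K_4^3`-free 3-graph on `n` vertices.

(3) For `0 < ε ≤ 1` the number of the ordered pairs of codegree at least `(1 - ε) n` of a `K_4^3`-free
3-graph on `n` vertices is at most `(2 ε + 27 ε^(5/4)) n²`.

(4) For `0 < ε ≤ 1` and `δ > 0` it is, for all large `n`, at least `(2 ε (1 - ε) - δ) n²` for some
`K_4^3`-free 3-graph on `n` vertices. -/
theorem result :
    (∀ p : ℝ, 2 ≤ p → ∀ (n : ℕ) (H : Finset (Finset (Fin n))), (∀ e ∈ H, e.card = 3) →
      K43Free H → ∑ x, ∑ y, (codegree H x y : ℝ) ^ p ≤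
        (2 / (Real.exp 1 * p) + 400 * Real.log p ^ 2 / p ^ (5 / 4 : ℝ)) * (n : ℝ) ^ (p + 2)) ∧
    (∀ p : ℝ, 1 ≤ p → ∀ δ : ℝ, 0 < δ → ∃ N : ℕ, ∀ n : ℕ, N ≤ n →
      ∃ H : Finset (Finset (Fin n)), (∀ e ∈ H, e.card = 3) ∧ K43Free H ∧
        (2 / (Real.exp 1 * (p + 2)) - δ) * (n : ℝ) ^ (p + 2) ≤
          ∑ x, ∑ y, (codegree H x y : ℝ) ^ p) ∧
    (∀ ε : ℝ, 0 < ε → ε ≤ 1 → ∀ (n : ℕ) (H : Finset (Finset (Fin n))), (∀ e ∈ H, e.card = 3) →
      K43Free H →
        ((univ.filter fun q : Fin n × Fin n =>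
          (1 - ε) * (n : ℝ) ≤ (codegree H q.1 q.2 : ℝ)).card : ℝ) ≤
          (2 * ε + 27 * ε ^ (5 / 4 : ℝ)) * (n : ℝ) ^ 2) ∧
    (∀ ε : ℝ, 0 < ε → ε ≤ 1 → ∀ δ : ℝ, 0 < δ → ∃ N : ℕ, ∀ n : ℕ, N ≤ n →
      ∃ H : Finset (Finset (Fin n)), (∀ e ∈ H, e.card = 3) ∧ K43Free H ∧
        (2 * ε * (1 - ε) - δ) * (n : ℝ) ^ 2 ≤
          ((univ.filter fun q : Fin n × Fin n =>
            (1 - ε) * (n : ℝ) ≤ (codegree H q.1 q.2 : ℝ)).card : ℝ)) := by
  refine ⟨fun p hp n H h3 hF => ?_, fun p hp δ hδ => ?_, fun ε hε hε1 n H h3 hF => ?_,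
    fun ε hε hε1 δ hδ => ?_⟩
  · rcases Nat.eq_zero_or_pos n with rfl | hn
    · simp
      rw [Real.zero_rpow (by linarith)]
      simp
    · have hn0 : (0:ℝ) < n := by exact_mod_cast hn
      have h := Pool.Agent.V11262.K4.upper_p (rel_sym H) (rel_free h3 hF)
        (by rw [Fintype.card_fin]; exact hn) hp
      rw [Fintype.card_fin] at h
      have e1 : ∀ x y : Fin n, (codegree H x y : ℝ) ^ p =
          (n : ℝ) ^ p * ((Pool.Agent.V11262.K4.cd
            (fun x y z : Fin n => ({x, y, z} : Finset (Fin n)) ∈ H) x y : ℝ) / n) ^ p := by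
        intro x y
        rw [← Real.mul_rpow hn0.le (by positivity)]
        congr 1
        rw [mul_div_cancel₀ _ hn0.ne', cod_eq]
      simp only [e1, ← Finset.mul_sum]
      have e2 : (n : ℝ) ^ (p + 2) = (n : ℝ) ^ p * (n : ℝ) ^ 2 := by
        rw [Real.rpow_add hn0, Real.rpow_two]
      rw [e2]
      calc _ ≤ (n : ℝ) ^ p * ((2 / (Real.exp 1 * p) + 400 * Real.log p ^ 2 / p ^ (5 / 4 : ℝ)) *
            (n : ℝ) ^ 2) := mul_le_mul_of_nonneg_left h (by positivity)
        _ = _ := by ring
  · obtain ⟨N, hN⟩ := Pool.Agent.V11262.K4.lower_p hp hδ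
    refine ⟨N, fun n hn => ?_⟩
    obtain ⟨m, hm⟩ := hN n hn
    exact ⟨Pool.Agent.V11262.K4.star n m, Pool.Agent.V11262.K4.star_card,
      fun S hS => Pool.Agent.V11262.K4.star_free S hS, hm⟩
  · rcases Nat.eq_zero_or_pos n with rfl | hn
    · simp
    · have hn0 : (0:ℝ) < n := by exact_mod_cast hn
      have h := Pool.Agent.V11262.K4.upper_e (rel_sym H) (rel_free h3 hF)
        (by rw [Fintype.card_fin]; exact hn) hε hε1
      rw [Fintype.card_fin] at h
      refine le_trans (le_of_eq ?_) h
      rw [Finset.card_filter, Fintype.sum_prod_type]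
      push_cast
      refine Finset.sum_congr rfl fun x _ => Finset.sum_congr rfl fun y _ => ?_
      have e1 : (1 - ε ≤ (Pool.Agent.V11262.K4.cd
            (fun x y z : Fin n => ({x, y, z} : Finset (Fin n)) ∈ H) x y : ℝ) / n) ↔
          ((1 - ε) * (n : ℝ) ≤ (codegree H x y : ℝ)) := by
        rw [le_div_iff₀ hn0, cod_eq]
      by_cases h1 : (1 - ε) * (n : ℝ) ≤ (codegree H x y : ℝ)
      · rw [if_pos h1, if_pos (e1.mpr h1)]
      · rw [if_neg h1, if_neg (fun h2 => h1 (e1.mp h2))]
  · obtain ⟨N, hN⟩ := Pool.Agent.V11262.K4.lower_e hε hε1 hδ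
    refine ⟨N, fun n hn => ?_⟩
    obtain ⟨m, hm⟩ := hN n hn
    exact ⟨Pool.Agent.V11262.K4.star n m, Pool.Agent.V11262.K4.star_card,
      fun S hS => Pool.Agent.V11262.K4.star_free S hS, hm⟩

end Pool.Agent.Results.MP_f1799f_co.LargeCodegrees
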