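import Pool.Agent.V11209.TN.Cor

/-!
# 3-graphs without complete quadruples and families of involutions

Let `H` be a 3-graph in which no four vertices span all four triples, and let the vertices be divided
into two sides of size `m` which are exchanged by `m` involutions, such that any two vertices on
different sides are exchanged by exactly one of them. The involutions are not supposed to preserve
`H`; let `D` be the number of pairs of an involution `τ` and an edge `e` which contains two vertices
exchanged by `τ` and is not mapped to an edge by `τ`. Then `|H| ≤ m (m - 1) (13 m - 6) / 18 + D / 2`,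
so that `H` has density at most `13/24 + 3 D / (8 m³) + o(1)`, and Turán's conjecture holds for `H` if
`D ≤ m³ / 27`. There is a similar inequality for two such blocks.
-/

set_option autoImplicit false

open Finset Pool.Agent.V11209.TN Pool.Agent.V11328.TD

namespace Pool.Agent.Results.MP_f1799f_co.NearlySymmetric

/-- Let `H` be a 3-graph without complete quadruples.

(1) Let the vertices be divided into two sides and let `T` be a nonempty set of involutions of the
vertices which exchange the sides, such that any two vertices on different sides are exchanged by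
exactly one of them. Then `H` has `2 m` vertices and at most `m (m - 1) (13 m - 6) / 18 + D / 2`
edges, where `D` is the defect of `T`; if `27 D ≤ m³ + 21 m² - 30 m`, then `H` has at most as many
edges as Turán's construction.

(2) The same with two blocks, each of which is divided into two sides, all members of `T` preserving
the blocks, and any two vertices on different sides of the same block being exchanged by exactly one
of them. Then `H` has `4 m` vertices and at most `5.9 m³ - m² + D` edges; if
`270 D ≤ 7 m³ - 450 m² - 120 m`, then `H` has at most as many edges as Turán's construction.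

(3), (4) The case of defect zero for generalized dihedral groups which act freely with one,
respectively two orbits and preserve `H`. -/
theorem result :
    (∀ (V : Type) [Fintype V] [DecidableEq V] (H : Finset (Finset V)), K43Free H →
      ∀ (T : Finset (Equiv.Perm V)) (side : V → Bool) (blk : V → Fin 1), T.Nonempty →
        Function.Surjective blk → Swaps 1 T side blk →
        ∃ m : ℕ, Fintype.card V = 2 * m ∧
          (H.card : ℝ) ≤ (m : ℝ) * (m - 1) * (13 * m - 6) / 18 + (defect H T side : ℝ) / 2 ∧
          (27 * (defect H T side : ℝ) ≤ (m : ℝ) ^ 3 + 21 * (m : ℝ) ^ 2 - 30 * m →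
            H.card + turan (2 * m) ≤ (2 * m).choose 3)) ∧
    (∀ (V : Type) [Fintype V] [DecidableEq V] (H : Finset (Finset V)), K43Free H →
      ∀ (T : Finset (Equiv.Perm V)) (side : V → Bool) (blk : V → Fin 2), T.Nonempty →
        Function.Surjective blk → Swaps 2 T side blk →
        ∃ m : ℕ, Fintype.card V = 4 * m ∧
          (H.card : ℝ) ≤ 59 / 10 * (m : ℝ) ^ 3 - (m : ℝ) ^ 2 + (defect H T side : ℝ) ∧
          (270 * (defect H T side : ℝ) ≤ 7 * (m : ℝ) ^ 3 - 450 * (m : ℝ) ^ 2 - 120 * m →
            H.card + turan (4 * m) ≤ (4 * m).choose 3)) ∧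
    (∀ (Γ V : Type) [Group Γ] [MulAction Γ V] [Fintype V] [DecidableEq V]
      (H : Finset (Finset V)), K43Free H → DihedralSymmetric Γ V 1 H →
        ∃ m : ℕ, Fintype.card V = 2 * m ∧
          (H.card : ℝ) ≤ (m : ℝ) * (m - 1) * (13 * m - 6) / 18) ∧
    (∀ (Γ V : Type) [Group Γ] [MulAction Γ V] [Fintype V] [DecidableEq V]
      (H : Finset (Finset V)), K43Free H → DihedralSymmetric Γ V 2 H →
        ∃ m : ℕ, Fintype.card V = 4 * m ∧
          (H.card : ℝ) ≤ 59 / 10 * (m : ℝ) ^ 3 - (m : ℝ) ^ 2) := by
  refine ⟨?_, ?_, ?_, ?_⟩
  · intro V _ _ H hH T side blk hne hs hT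
    obtain ⟨h1, h2⟩ := one_block hH hT hne hs
    refine ⟨T.card, h1, h2, fun h => ?_⟩
    have h3 := turan_le (2 * T.card)
    have h4 := choose_real (2 * T.card) (by have := hne.card_pos; omega)
    push_cast at h3 h4
    have h5 : (H.card : ℝ) + turan (2 * T.card) ≤ ((2 * T.card).choose 3 : ℕ) := by
      rw [h4]
      nlinarith
    exact_mod_cast h5
  · intro V _ _ H hH T side blk hne hs hT
    obtain ⟨h1, h2⟩ := two_blocks hH hT hne hs
    refine ⟨T.card, h1, h2, fun h => ?_⟩
    have h3 := turan_le (4 * T.card)
    have h4 := choose_real (4 * T.card) (by have := hne.card_pos; omega)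
    push_cast at h3 h4
    have h5 : (H.card : ℝ) + turan (4 * T.card) ≤ ((4 * T.card).choose 3 : ℕ) := by
      rw [h4]
      nlinarith
    exact_mod_cast h5
  · intro Γ V _ _ _ _ H hH h
    obtain ⟨T, side, blk, hT, hne, hs⟩ := swap_of_group h (by norm_num)
    obtain ⟨h1, h2⟩ := one_block hH (swaps_of_family hT) hne hs
    rw [defect_zero (swaps_of_family hT) hT.inv] at h2
    exact ⟨T.card, h1, by simpa using h2⟩
  · intro Γ V _ _ _ _ H hH h
    obtain ⟨T, side, blk, hT, hne, hs⟩ := swap_of_group h (by norm_num)
    obtain ⟨h1, h2⟩ := two_blocks hH (swaps_of_family hT) hne hs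
    rw [defect_zero (swaps_of_family hT) hT.inv] at h2
    exact ⟨T.card, h1, by simpa using h2⟩

end Pool.Agent.Results.MP_f1799f_co.NearlySymmetric
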