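import Pool.Agent.V11247.Tri3.Pl2

/-!
# `K_4^3`-free 3-graphs on three independent sets: three unavoidable configurations

Let the vertices of a `K_4^3`-free 3-graph `G` on `n` vertices be divided into three classes of any
sizes, and let `M` be the set of edges that meet at least two classes. We consider three
configurations of five vertices `x_0, ..., x_4` (only the triples which are not inside a class
matter).

* (I) `x_0, x_1, x_2, x_3` are in one class and `x_4` in another, and the link of `x_4` on
  `x_0, x_1, x_2, x_3` is the star with centre `x_3` and three leaves.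
* (II) `x_0, x_1, x_2` are in one class and `x_3, x_4` in another; all triples except `x_0 x_3 x_4` and
  `x_1 x_3 x_4` are edges.
* (III) `x_0, x_1, x_2` are in one class and `x_3`, `x_4` in the two other classes; all triples except
  `x_0 x_3 x_4` and `x_1 x_2 x_3` are edges.

If `N₁`, `N₂`, `N₃` are the numbers of placements of these configurations, then `|M|` is at most
`5/54 n³ + 2 N₁ / n² + 6 n²`, `5/54 n³ + N₂ / n²` and `5/54 n³ + 2 N₃ / n²`. Hence the density of `G`
is at most `5/9 + o(1)` if (almost) no edge is inside a class and one of the three numbers is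
`o(n⁵)`. In Turán's construction the three parts are independent and `N₁ = N₂ = N₃ = 0`. So a
`K_4^3`-free 3-graph on three independent sets whose density exceeds `5/9 + ε` contains a positive
proportion of each of the three configurations.

Outline: for each of the three configurations there is a sum of squares certificate for coloured
five-vertex structures, exact on the subgraphs of Turán's construction, found by a semidefinite
programming solver, made exact, and checked by the kernel.
-/

set_option autoImplicit false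
open Finset

namespace Pool.Agent.Results.MP_f1799f_co.ThreeIndependentSets

/-- `G` is a 3-graph on `Fin n`: a set of triples. -/
def ThreeGraph {n : ℕ} (G : Finset (Finset (Fin n))) : Prop := ∀ e ∈ G, e.card = 3

/-- No four vertices span all four triples. -/
def K43Free {n : ℕ} (G : Finset (Finset (Fin n))) : Prop :=
  ∀ S : Finset (Fin n), S.card = 4 → ∃ e ⊆ S, e.card = 3 ∧ e ∉ G

/-- The edges of `G` that meet at least two classes of the colouring `c`. -/
def mixed {n : ℕ} (G : Finset (Finset (Fin n))) (c : Fin n → Fin 3) : Finset (Finset (Fin n)) :=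
  G.filter fun e => ∃ x ∈ e, ∃ y ∈ e, c x ≠ c y

/-- The edges of `G` inside the classes. -/
def inside {n : ℕ} (G : Finset (Finset (Fin n))) (c : Fin n → Fin 3) : Finset (Finset (Fin n)) :=
  G.filter fun e => ¬ ∃ x ∈ e, ∃ y ∈ e, c x ≠ c y

/-- The placements in `(G, c)` of the configuration on `x_0, ..., x_4` given by the colours `col` and
the list `L` of non-edges: the injective maps `x` such that `x_i` and `x_j` are in the same class
exactly if `col i = col j`, and a triple `x_i x_j x_k` which is not inside a class is a non-edge of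
`G` exactly if `{i, j, k}` is in `L`. -/
def placements {n : ℕ} (G : Finset (Finset (Fin n))) (c : Fin n → Fin 3) (col : Fin 5 → Fin 3)
    (L : Finset (Finset (Fin 5))) : Finset (Fin 5 → Fin n) :=
  univ.filter fun x => Function.Injective x ∧ (∀ i j, c (x i) = c (x j) ↔ col i = col j) ∧
    ∀ i j k, i < j → j < k → ¬ (col i = col j ∧ col j = col k) →
      ({x i, x j, x k} ∉ G ↔ {i, j, k} ∈ L)

/-- The placements of the configuration (I). -/
def confI {n : ℕ} (G : Finset (Finset (Fin n))) (c : Fin n → Fin 3) : Finset (Fin 5 → Fin n) :=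
  placements G c ![0, 0, 0, 0, 1] {{0, 1, 4}, {0, 2, 4}, {1, 2, 4}}

/-- The placements of the configuration (II). -/
def confII {n : ℕ} (G : Finset (Finset (Fin n))) (c : Fin n → Fin 3) : Finset (Fin 5 → Fin n) :=
  placements G c ![0, 0, 0, 1, 1] {{0, 3, 4}, {1, 3, 4}}

/-- The placements of the configuration (III). -/
def confIII {n : ℕ} (G : Finset (Finset (Fin n))) (c : Fin n → Fin 3) : Finset (Fin 5 → Fin n) :=
  placements G c ![0, 0, 0, 1, 2] {{0, 3, 4}, {1, 2, 3}}

/-- The inequality `|M| ≤ 5/54 n³ + a |P| / n² + b n²` for the number `|M|` of edges that meet at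
least two classes. -/
def Bound {n : ℕ} (G : Finset (Finset (Fin n))) (c : Fin n → Fin 3) (P : Finset (Fin 5 → Fin n))
    (a b : ℝ) : Prop :=
  ((mixed G c).card : ℝ) ≤ 5 / 54 * n ^ 3 + a * (P.card / n ^ 2) + b * n ^ 2

theorem confI_eq {n : ℕ} (G : Finset (Finset (Fin n))) (c : Fin n → Fin 3) :
    confI G c = Pool.Agent.V11247.Tri3.cpA G c :=
  Pool.Agent.V11247.Tri3.plsGA G c

theorem confII_eq {n : ℕ} (G : Finset (Finset (Fin n))) (c : Fin n → Fin 3) :
    confII G c = Pool.Agent.V11247.Tri3.cpB G c :=
  Pool.Agent.V11247.Tri3.plsGB G c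

theorem confIII_eq {n : ℕ} (G : Finset (Finset (Fin n))) (c : Fin n → Fin 3) :
    confIII G c = Pool.Agent.V11247.Tri3.cpC G c :=
  Pool.Agent.V11247.Tri3.plsGC G c

theorem main (n : ℕ) (G : Finset (Finset (Fin n))) (c : Fin n → Fin 3) (hn : 1 ≤ n)
    (h3 : ThreeGraph G) (hK : K43Free G) : Bound G c (confI G c) 2 6 ∧
      Bound G c (confII G c) 1 0 ∧ Bound G c (confIII G c) 2 0 := by
  have h1 := Pool.Agent.V11247.Tri3.realA hn h3 hK c
  have h2 := Pool.Agent.V11247.Tri3.realB hn h3 hK c
  have h4 := Pool.Agent.V11247.Tri3.realC hn h3 hK c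
  rw [← confI_eq] at h1
  rw [← confII_eq] at h2
  rw [← confIII_eq] at h4
  refine ⟨h1, ?_, ?_⟩
  · unfold Bound
    rw [one_mul, zero_mul, add_zero]
    exact h2
  · unfold Bound
    rw [zero_mul, add_zero]
    exact h4

theorem split_card {n : ℕ} (G : Finset (Finset (Fin n))) (c : Fin n → Fin 3) :
    ((mixed G c).card : ℝ) + (inside G c).card = G.card := by
  have h : (mixed G c).card + (inside G c).card = G.card := card_filter_add_card_filter_not _
  exact_mod_cast h

open Pool.Agent.V11247.Tri3 in
theorem sharp (m : ℕ) (hm : 1 ≤ m) : ∃ (G : Finset (Finset (Fin (3 * m))))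
    (c : Fin (3 * m) → Fin 3), ThreeGraph G ∧ K43Free G ∧
      (inside G c).card + (confI G c).card + (confII G c).card + (confIII G c).card = 0 ∧
      (G.card : ℝ) = m ^ 2 * (5 * m - 3) / 2 := by
  obtain ⟨c, hc⟩ := exists_col m
  have hI : inside (turan c) c = ∅ := by
    unfold inside
    rw [filter_eq_empty_iff]
    exact fun e he h => h (turan_mixed c e he)
  refine ⟨turan c, c, turan_card3 c, turan_free c, ?_, ?_⟩
  · rw [hI, confI_eq, confII_eq, confIII_eq, cpA_turan, cpB_turan, cpC_turan]
    rfl
  · have h : ((2 * (turan c).card + 3 * m ^ 2 : ℕ) : ℝ) = ((5 * m ^ 3 : ℕ) : ℝ) := by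
      rw [turan_size c m hm hc]
    push_cast at h
    linarith

/-- **Three independent sets: three unavoidable configurations.** Let `G` be a `K_4^3`-free 3-graph
on `n ≥ 1` vertices and `c` a colouring of the vertices with three colours. (1) The three
inequalities for the number of edges that meet at least two classes, with the numbers of placements
of the configurations (I), (II), (III). (2) For every `ε > 0` there are `δ > 0` and `n₀` such that
`|G| ≤ (5/9 + ε) C(n,3)` if `n ≥ n₀`, at most `δ n³` edges are inside the classes and one of the three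
configurations has at most `δ n⁵` placements. (3) For every `m ≥ 1` there are `G` and `c` on `3 m`
vertices without any of the configurations and without edges inside the classes, such that
`|G| = m² (5 m - 3) / 2`. -/
theorem result :
    (∀ (n : ℕ) (G : Finset (Finset (Fin n))) (c : Fin n → Fin 3), 1 ≤ n →
      ThreeGraph G → K43Free G → Bound G c (confI G c) 2 6 ∧ Bound G c (confII G c) 1 0 ∧
      Bound G c (confIII G c) 2 0) ∧
    (∀ ε : ℝ, 0 < ε → ∃ δ : ℝ, 0 < δ ∧ ∃ n₀ : ℕ, ∀ n, n₀ ≤ n → ∀ (G : Finset (Finset (Fin n)))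
      (c : Fin n → Fin 3), ThreeGraph G → K43Free G → ((inside G c).card : ℝ) ≤ δ * n ^ 3 →
      (((confI G c).card : ℝ) ≤ δ * n ^ 5 ∨ ((confII G c).card : ℝ) ≤ δ * n ^ 5 ∨
        ((confIII G c).card : ℝ) ≤ δ * n ^ 5) →
      (G.card : ℝ) ≤ (5 / 9 + ε) * (n.choose 3 : ℝ)) ∧
    (∀ m : ℕ, 1 ≤ m → ∃ (G : Finset (Finset (Fin (3 * m)))) (c : Fin (3 * m) → Fin 3),
      ThreeGraph G ∧ K43Free G ∧
      (inside G c).card + (confI G c).card + (confII G c).card + (confIII G c).card = 0 ∧
      (G.card : ℝ) = m ^ 2 * (5 * m - 3) / 2) := by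
  refine ⟨fun n G c hn h3 hK => main n G c hn h3 hK, fun ε hε => ?_, sharp⟩
  refine ⟨ε / 100, by positivity, max 6 ⌈700 / ε⌉₊, fun n hn G c h3 hK hD hN => ?_⟩
  have hn6 : 6 ≤ n := (le_max_left _ _).trans hn
  obtain ⟨hA, hB, hC⟩ := main n G c (by omega) h3 hK
  unfold Bound at hA hB hC
  have hs := split_card G c
  have hn2 : (0 : ℝ) ≤ (n : ℝ) ^ 2 := by positivity
  suffices h : (4 / 9 - ε) * (n.choose 3 : ℝ) ≤ (n.choose 3 : ℝ) - G.card by linarith
  rcases hN with hN | hN | hN
  · exact Pool.Agent.V11247.Tri3.eps_form hε hn hD hN (by linarith)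
  · have h0 : (0 : ℝ) ≤ ((confII G c).card : ℝ) / (n : ℝ) ^ 2 := by positivity
    exact Pool.Agent.V11247.Tri3.eps_form hε hn hD hN (by linarith)
  · exact Pool.Agent.V11247.Tri3.eps_form hε hn hD hN (by linarith)

end Pool.Agent.Results.MP_f1799f_co.ThreeIndependentSets
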